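import Pool.Agent.Run7.h677.EU.Spec

/-!
# The bounds for the Gauss-Bonnet integrand of Einstein tensors, in components
-/

set_option autoImplicit false

open scoped BigOperators

namespace Run7.h677.EU

open Hopf6 Pool.Agent.W714.HE

/-- A function of a unit vector whose average is (a multiple of) the integrand. -/
noncomputable def ph (R : Ten) (c t : ℝ) (x : Fin 6 → ℝ) : ℝ :=
  (1875 - 250 * t - 400 / 3 * (c * t)) + (-300 + 130 / 3 * t + 80 / 3 * (c * t)) * mJJ R x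
    + (80 - 52 / 3 * t) * mJJJ R x + (-32 + 6 * t) * mJSJ R x
    + t * (g221 R x - 2 * c * nW R x)

theorem av_ph {ι : Type} [Fintype ι] (D : Design ι) {R : Ten} (hR : IsCurv R)
    (hE : ∀ a b, Rc R a b = if a = b then 5 else 0) (c t : ℝ) :
    D.av (ph R c t) = 135 / 5760 * gb R := by
  have e : ph R c t = comb R
      ((1875 - 250 * t - 400 / 3 * (c * t)) +
        (-(2 * c * t)) * (nS R - 4 / 3 * nR R + 1 / 6 * sc R ^ 2))
      (t * (1 / 3 * sc R ^ 2 - 2 * nR R + nS R) + (-(2 * c * t)) * (-(2 / 3) * sc R))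
      (t * (-(4 / 3) * sc R) + (-(2 * c * t)) * (-(2 / 3)))
      (t * (-(2 / 3)))
      ((-300 + 130 / 3 * t + 80 / 3 * (c * t)) + t * (4 / 3 * sc R) + (-(2 * c * t)) * (8 / 3))
      (t * (10 / 3))
      (t * (-(4 / 3) * sc R) + (-(2 * c * t)) * (8 / 3))
      (t * (20 / 3))
      ((-(2 * c * t)) * (8 / 3))
      (4 * t)
      (-(4 * (-(2 * c * t))))
      (-(4 * t))
      (80 - 52 / 3 * t - 8 / 3 * t)
      (-(20 / 3 * t))
      (10 / 3 * t)
      (-(10 / 3 * t))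
      (-(3 * t))
      (3 * t)
      (6 * t)
      (4 * t)
      ((-32 + 6 * t) - 4 * t)
      (-(8 * t)) := by
    funext x
    unfold ph comb g221 nW
    ring
  rw [e, av_comb D hR, gb_eq hR, sc_ein hE, nR_ein hE, I4_ein hE, I5_ein hE, I6_ein hE]
  ring

section
variable {R : Ten} (hR : IsCurv R) (hE : ∀ a b, Rc R a b = if a = b then 5 else 0)
include hR hE

theorem core_third
    (h : ∀ z : Fin 6 → ℝ, ∑ a, z a ^ 2 = 1 → ∀ y, 1 / 3 * area2 z y ≤ quad R z y) :
    128 / 3 * 4 ≤ gb R := by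
  obtain ⟨ι, _, ⟨D⟩⟩ := exists_design
  have hpt : ∀ x : Fin 6 → ℝ, ∑ a, x a ^ 2 = 1 → 4 ≤ ph R (1 / 3) 1 x := by
    intro x hx
    obtain ⟨l, K, h1, h2, h3, h4, h5, h6, m1, m2, m3⟩ := spec hR hE hx h
    have hf := fin_ineq l K h1 h2 h3 h4 h5 h6
    have hw := weyl_nonneg_a hR hx (c := 1 / 3) (fun y => h x hx y)
    unfold ph
    rw [m1, m2, m3]
    linarith
  have h1 : 0 ≤ D.av (fun x => ph R (1 / 3) 1 x + -4) :=
    D.av_nonneg fun i => by
      have := hpt _ (D.unit i)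
      linarith
  have h2 : D.av (fun x => ph R (1 / 3) 1 x + -4) = D.av (ph R (1 / 3) 1) + -4 := by
    rw [Design.av_add, Design.av_one]
  rw [h2, av_ph D hR hE] at h1
  linarith

theorem core_sharp {c : ℝ}
    (h : ∀ z : Fin 6 → ℝ, ∑ a, z a ^ 2 = 1 → ∀ y, c * area2 z y ≤ quad R z y) :
    5760 + 48 * (4 * c - 3) * (nS R - 60) ≤ gb R := by
  obtain ⟨ι, _, ⟨D⟩⟩ := exists_design
  have hpt : ∀ x : Fin 6 → ℝ, ∑ a, x a ^ 2 = 1 →
      135 + 36 * (4 * c - 3) * (mJJ R x - 5) ≤ ph R c (24 / 5) x := by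
    intro x hx
    obtain ⟨l, K, h1, h2, h3, h4, h5, h6, m1, m2, m3⟩ := spec hR hE hx h
    have hf := fin_ineq2 l K h1 h2 h3 h4 h6
    have hw := weyl_nonneg_a hR hx (c := c) (fun y => h x hx y)
    unfold ph
    rw [m1, m2, m3]
    linarith
  have h1 : 0 ≤ D.av (fun x => ph R c (24 / 5) x + (-(36 * (4 * c - 3)) * mJJ R x
      + (-(135 - 180 * (4 * c - 3))))) :=
    D.av_nonneg fun i => by
      have := hpt _ (D.unit i)
      linarith
  have h2 : D.av (fun x => ph R c (24 / 5) x + (-(36 * (4 * c - 3)) * mJJ R x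
      + (-(135 - 180 * (4 * c - 3))))) = D.av (ph R c (24 / 5))
      + (-(36 * (4 * c - 3)) * D.av (fun x => mJJ R x) + (-(135 - 180 * (4 * c - 3)))) := by
    rw [Design.av_add, Design.av_add, Design.av_cmul, Design.av_one]
  rw [h2, av_ph D hR hE, show D.av (fun x => mJJ R x) = _ from D.av_JJ hR, nR_ein hE] at h1
  linarith

end

end Run7.h677.EU
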