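import Mathlib

/-!
# The finite inequality behind the theorem on Einstein tensors with curvature away from zero

`l i` are the eigenvalues of the Jacobi operator at a unit vector of an Einstein curvature tensor
(`Ric = 5`), `K i j` the sectional curvatures of the planes spanned by the eigenvectors; all are at
least `1 / 3`.
-/

set_option autoImplicit false

open scoped BigOperators

namespace Run7.h677.EU

/-- A symmetric cubic inequality of the type of Schur for five nonnegative numbers (here ordered;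
`e0, e0 + e1, ...` are the numbers). -/
theorem schur5_sorted {a b c d e : ℝ} (ha : 0 ≤ a) (hb : 0 ≤ b) (hc : 0 ≤ c) (hd : 0 ≤ d)
    (he : 0 ≤ e) :
    0 ≤ (a + (a + b) + (a + b + c) + (a + b + c + d) + (a + b + c + d + e)) ^ 3
      - 5 * (a + (a + b) + (a + b + c) + (a + b + c + d) + (a + b + c + d + e))
        * (a ^ 2 + (a + b) ^ 2 + (a + b + c) ^ 2 + (a + b + c + d) ^ 2 + (a + b + c + d + e) ^ 2)
      + 6 * (a ^ 3 + (a + b) ^ 3 + (a + b + c) ^ 3 + (a + b + c + d) ^ 3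
        + (a + b + c + d + e) ^ 3) := by
  have id : (a + (a + b) + (a + b + c) + (a + b + c + d) + (a + b + c + d + e)) ^ 3
      - 5 * (a + (a + b) + (a + b + c) + (a + b + c + d) + (a + b + c + d + e))
        * (a ^ 2 + (a + b) ^ 2 + (a + b + c) ^ 2 + (a + b + c + d) ^ 2 + (a + b + c + d + e) ^ 2)
      + 6 * (a ^ 3 + (a + b) ^ 3 + (a + b + c) ^ 3 + (a + b + c + d) ^ 3
        + (a + b + c + d + e) ^ 3) =
      2 * (15 * a ^ 3 + 36 * (b * a ^ 2) + 26 * (b ^ 2 * a) + 4 * b ^ 3 + 27 * (c * a ^ 2)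
        + 39 * (c * b * a) + 9 * (c * b ^ 2) + 12 * (c ^ 2 * a) + 6 * (c ^ 2 * b)
        + 18 * (d * a ^ 2) + 26 * (d * b * a) + 6 * (d * b ^ 2) + 16 * (d * c * a)
        + 8 * (d * c * b) + 3 * (d ^ 2 * a) + 2 * (d ^ 2 * b) + d ^ 2 * c
        + 13 * (e * b * a) + 3 * (e * b ^ 2) + 8 * (e * c * a) + 4 * (e * c * b)
        + 3 * (e * d * a) + 2 * (e * d * b) + e * d * c + e ^ 2 * c + 2 * (e ^ 2 * d)
        + e * ((e - a / 2) ^ 2 + 35 / 4 * a ^ 2)) := by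
    ring
  rw [id]
  positivity

theorem schur5 (p : Fin 5 → ℝ) (hp : ∀ i, 0 ≤ p i) :
    0 ≤ (∑ i, p i) ^ 3 - 5 * (∑ i, p i) * (∑ i, p i ^ 2) + 6 * ∑ i, p i ^ 3 := by
  let σ := Tuple.sort p
  have hm : Monotone (p ∘ σ) := Tuple.monotone_sort p
  have h1 : ∑ i, p i = ∑ i, p (σ i) := (Equiv.sum_comp σ p).symm
  have h2 : ∑ i, p i ^ 2 = ∑ i, p (σ i) ^ 2 := (Equiv.sum_comp σ fun i => p i ^ 2).symm
  have h3 : ∑ i, p i ^ 3 = ∑ i, p (σ i) ^ 3 := (Equiv.sum_comp σ fun i => p i ^ 3).symm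
  have m01 : p (σ 0) ≤ p (σ 1) := hm (by decide)
  have m12 : p (σ 1) ≤ p (σ 2) := hm (by decide)
  have m23 : p (σ 2) ≤ p (σ 3) := hm (by decide)
  have m34 : p (σ 3) ≤ p (σ 4) := hm (by decide)
  have h := schur5_sorted (hp (σ 0)) (sub_nonneg.2 m01) (sub_nonneg.2 m12) (sub_nonneg.2 m23)
    (sub_nonneg.2 m34)
  rw [h1, h2, h3]
  simp only [Fin.sum_univ_five]
  have e1 : p (σ 0) + (p (σ 1) - p (σ 0)) = p (σ 1) := by ring
  have e2 : p (σ 1) + (p (σ 2) - p (σ 1)) = p (σ 2) := by ring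
  have e3 : p (σ 2) + (p (σ 3) - p (σ 2)) = p (σ 3) := by ring
  have e4 : p (σ 3) + (p (σ 4) - p (σ 3)) = p (σ 4) := by ring
  rw [e1, e2, e3, e4] at h
  exact h

/-- Chebyshev's inequality for the sums of powers. -/
theorem cheb5 (p : Fin 5 → ℝ) (hp : ∀ i, 0 ≤ p i) :
    (∑ i, p i) * (∑ i, p i ^ 2) ≤ 5 * ∑ i, p i ^ 3 := by
  have h : ∀ i j, 0 ≤ (p i + p j) * (p i - p j) ^ 2 := fun i j =>
    mul_nonneg (add_nonneg (hp i) (hp j)) (sq_nonneg _)
  simp only [Fin.sum_univ_five]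
  nlinarith [h 0 1, h 0 2, h 0 3, h 0 4, h 1 2, h 1 3, h 1 4, h 2 3, h 2 4, h 3 4]

/-- The upper bound for `∑ l_i l_j K_ij` if all `K_ij` are at least `c`. -/
theorem jsj_le {c : ℝ} (l : Fin 5 → ℝ) (K : Fin 5 → Fin 5 → ℝ)
    (hsym : ∀ i j, K i j = K j i) (hd : ∀ i, K i i = 0) (hK : ∀ i j, i ≠ j → c ≤ K i j)
    (hrow : ∀ i, ∑ j, K i j = 5 - l i) (hs : ∑ i, l i = 5) :
    ∑ i, ∑ j, l i * l j * K i j ≤
      25 * c + (5 - 5 * c) * ∑ i, l i ^ 2 - ∑ i, l i ^ 3 := by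
  let K' : Fin 5 → Fin 5 → ℝ := fun i j => K i j - if i = j then 0 else c
  have hK' : ∀ i j, 0 ≤ K' i j := by
    intro i j
    simp only [K']
    split_ifs with h
    · rw [h, hd]
      norm_num
    · linarith [hK i j h]
  have hsym' : ∀ i j, K' i j = K' j i := by
    intro i j
    simp only [K', hsym i j]
    simp only [eq_comm]
  have hrow' : ∀ i, ∑ j, K' i j = 5 - 4 * c - l i := by
    intro i
    simp only [K', Finset.sum_sub_distrib, hrow i]
    have : ∑ j : Fin 5, (if i = j then (0 : ℝ) else c) = 4 * c := by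
      fin_cases i <;> simp [Fin.sum_univ_five] <;> ring
    rw [this]
    ring
  have h1 : ∑ i, ∑ j, l i * l j * K' i j ≤ ∑ i, ∑ j, (l i ^ 2 + l j ^ 2) / 2 * K' i j := by
    refine Finset.sum_le_sum fun i _ => Finset.sum_le_sum fun j _ => ?_
    refine mul_le_mul_of_nonneg_right ?_ (hK' i j)
    nlinarith [sq_nonneg (l i - l j)]
  have h2 : ∑ i, ∑ j, (l i ^ 2 + l j ^ 2) / 2 * K' i j = ∑ i, l i ^ 2 * (5 - 4 * c - l i) := by
    have e1 : ∑ i, ∑ j, (l i ^ 2 + l j ^ 2) / 2 * K' i j =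
        ∑ i, ∑ j, l i ^ 2 / 2 * K' i j + ∑ i, ∑ j, l j ^ 2 / 2 * K' i j := by
      rw [← Finset.sum_add_distrib]
      refine Finset.sum_congr rfl fun i _ => ?_
      rw [← Finset.sum_add_distrib]
      exact Finset.sum_congr rfl fun j _ => by ring
    have e2 : ∑ i, ∑ j, l j ^ 2 / 2 * K' i j = ∑ i, ∑ j, l i ^ 2 / 2 * K' i j := by
      rw [Finset.sum_comm]
      exact Finset.sum_congr rfl fun i _ => Finset.sum_congr rfl fun j _ => by rw [hsym' j i]
    rw [e1, e2, ← Finset.sum_add_distrib]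
    refine Finset.sum_congr rfl fun i _ => ?_
    rw [← Finset.mul_sum, hrow' i]
    ring
  have h3 : ∑ i, ∑ j, l i * l j * K i j =
      ∑ i, ∑ j, l i * l j * K' i j + c * (25 - ∑ i, l i ^ 2) := by
    have e1 : ∀ i j, l i * l j * K i j =
        l i * l j * K' i j + (c * (l i * l j) - if i = j then c * l i ^ 2 else 0) := by
      intro i j
      simp only [K']
      split_ifs with h
      · rw [h]
        ring
      · ring
    simp only [e1, Finset.sum_add_distrib, Finset.sum_sub_distrib]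
    congr 1
    have e2 : ∑ i, ∑ j, c * (l i * l j) = 25 * c := by
      simp only [← Finset.mul_sum]
      rw [← Finset.sum_mul, hs]
      ring
    rw [e2]
    simp only [Finset.sum_ite_eq, Finset.mem_univ, if_true]
    rw [← Finset.mul_sum]
    ring
  have h4 : ∑ i, l i ^ 2 * (5 - 4 * c - l i) = (5 - 4 * c) * ∑ i, l i ^ 2 - ∑ i, l i ^ 3 := by
    rw [Finset.mul_sum, ← Finset.sum_sub_distrib]
    exact Finset.sum_congr rfl fun i _ => by ring
  rw [h3]
  linarith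

/-- The finite inequality for curvatures at least `1 / 3`. -/
theorem fin_ineq (l : Fin 5 → ℝ) (K : Fin 5 → Fin 5 → ℝ)
    (hsym : ∀ i j, K i j = K j i) (hd : ∀ i, K i i = 0) (hK : ∀ i j, i ≠ j → 1 / 3 ≤ K i j)
    (hrow : ∀ i, ∑ j, K i j = 5 - l i) (hl : ∀ i, 1 / 3 ≤ l i) (hs : ∑ i, l i = 5) :
    4 ≤ 14225 / 9 - 2230 / 9 * ∑ i, l i ^ 2 + 188 / 3 * ∑ i, l i ^ 3
      - 26 * ∑ i, ∑ j, l i * l j * K i j := by
  have h0 := jsj_le l K hsym hd hK hrow hs
  have hp : ∀ i, 0 ≤ l i - 1 / 3 := fun i => sub_nonneg.2 (hl i)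
  have s5 := schur5 (fun i => l i - 1 / 3) hp
  have c5 := cheb5 (fun i => l i - 1 / 3) hp
  have p1 : ∑ i, (l i - 1 / 3) = 10 / 3 := by
    rw [Finset.sum_sub_distrib, hs]
    simp
    norm_num
  have p2 : ∑ i, (l i - 1 / 3) ^ 2 = ∑ i, l i ^ 2 - 25 / 9 := by
    have : ∀ i, (l i - 1 / 3) ^ 2 = l i ^ 2 - 2 / 3 * l i + 1 / 9 := fun i => by ring
    simp only [this, Finset.sum_add_distrib, Finset.sum_sub_distrib, ← Finset.mul_sum, hs]
    simp
    ring
  have p3 : ∑ i, (l i - 1 / 3) ^ 3 = ∑ i, l i ^ 3 - ∑ i, l i ^ 2 + 40 / 27 := by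
    have : ∀ i, (l i - 1 / 3) ^ 3 = l i ^ 3 - l i ^ 2 + 1 / 3 * l i - 1 / 27 := fun i => by ring
    simp only [this, Finset.sum_add_distrib, Finset.sum_sub_distrib, ← Finset.mul_sum, hs]
    simp
    ring
  simp only [p1, p2, p3] at s5 c5
  linarith

/-- The finite inequality for curvatures at least `c ≥ 3 / 4`. -/
theorem fin_ineq2 {c : ℝ} (l : Fin 5 → ℝ) (K : Fin 5 → Fin 5 → ℝ)
    (hsym : ∀ i j, K i j = K j i) (hd : ∀ i, K i i = 0) (hK : ∀ i j, i ≠ j → c ≤ K i j)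
    (hrow : ∀ i, ∑ j, K i j = 5 - l i) (hs : ∑ i, l i = 5) :
    135 + 36 * (4 * c - 3) * (∑ i, l i ^ 2 - 5) ≤
      675 - 640 * c + (128 * c - 92) * ∑ i, l i ^ 2 - 16 / 5 * ∑ i, l i ^ 3
      - 16 / 5 * ∑ i, ∑ j, l i * l j * K i j := by
  have h0 := jsj_le l K hsym hd hK hrow hs
  linarith

end Run7.h677.EU
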