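import Pool.Agent.Run7.h677.EU.Core

/-!
# Einstein curvature tensors with curvature away from zero in dimension six
-/

set_option autoImplicit false

open scoped BigOperators

namespace Run7.h677.EU

open Hopf6 Pool.Agent.W714.HE Pool.Agent.W714.ES

/-- the squared norm of the difference of a tensor and the curvature tensor of the unit sphere -/
noncomputable def dev (T : Ten) : ℝ :=
  ∑ a, ∑ b, ∑ c, ∑ d, (T a b c d - ((if a = c then 1 else 0) * (if b = d then 1 else 0)
    - (if a = d then 1 else 0) * (if b = c then 1 else 0))) ^ 2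

theorem dev_eq {T : Ten} (hT : IsCurv T) (hE : ∀ a b, Rc T a b = if a = b then 5 else 0) :
    dev T = nS T - 60 := by
  have h1 : ∀ a b, ∑ c, ∑ d, (T a b c d - ((if a = c then 1 else 0) * (if b = d then 1 else 0)
      - (if a = d then 1 else 0) * (if b = c then 1 else 0))) ^ 2 =
      (∑ c, ∑ d, T a b c d * T a b c d) - 4 * T a b a b
        + (if a = b then 0 else 2) := by
    intro a b
    have e1 : ∀ c d, (T a b c d - ((if a = c then 1 else 0) * (if b = d then 1 else 0)
        - (if a = d then 1 else 0) * (if b = c then 1 else 0))) ^ 2 =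
        T a b c d * T a b c d
        + ((if a = c then (if b = d then (1 - 2 * T a b c d) else 0) else 0)
        + (if a = d then (if b = c then (1 + 2 * T a b c d) else 0) else 0)
        + (if a = c then (if b = d then (if a = d then (if b = c then (-2 : ℝ) else 0) else 0)
            else 0) else 0)) := by
      intro c d
      split_ifs <;> ring
    simp only [e1, Finset.sum_add_distrib]
    have s1 : ∑ c, ∑ d, (if a = c then (if b = d then (1 - 2 * T a b c d) else 0) else 0) =
        1 - 2 * T a b a b := by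
      rw [Finset.sum_eq_single a]
      · simp
      · intro c _ hc
        simp [Ne.symm hc]
      · simp
    have s2 : ∑ c, ∑ d, (if a = d then (if b = c then (1 + 2 * T a b c d) else 0) else 0) =
        1 + 2 * T a b b a := by
      rw [Finset.sum_eq_single b]
      · simp
      · intro c _ hc
        simp [Ne.symm hc]
      · simp
    have s3 : ∑ c : Fin 6, ∑ d : Fin 6, (if a = c then (if b = d then (if a = d then
        (if b = c then (-2 : ℝ) else 0) else 0) else 0) else 0) = if a = b then -2 else 0 := by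
      rw [Finset.sum_eq_single a]
      · rw [Finset.sum_eq_single b]
        · by_cases hab : a = b
          · simp [hab]
          · simp [hab]
        · intro d _ hd
          simp [Ne.symm hd]
        · simp
      · intro c _ hc
        simp [Ne.symm hc]
      · simp
    rw [s1, s2, s3]
    have h2 : T a b b a = - T a b a b := by
      have h3 := hT.anti a b a b
      have h4 := hT.pair a b b a
      linarith
    rw [h2]
    split_ifs
    · ring
    · ring
  unfold dev nS
  simp only [h1]
  simp only [Finset.sum_add_distrib, Finset.sum_sub_distrib, ← Finset.mul_sum]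
  have h5 : ∑ a, ∑ b, T a b a b = 30 := by
    have : ∀ a, ∑ b, T a b a b = 5 := fun a => by
      have := hE a a
      rw [if_pos rfl] at this
      exact this
    simp only [this]
    simp
    norm_num
  have h6 : ∑ a : Fin 6, ∑ b : Fin 6, (if a = b then (0 : ℝ) else 2) = 60 := by
    have : ∀ a : Fin 6, ∑ b : Fin 6, (if a = b then (0 : ℝ) else 2) = 10 := by
      intro a
      fin_cases a <;> simp [Fin.sum_univ_six] <;> norm_num
    simp only [this]
    simp
    norm_num
  rw [h5, h6]
  ring

section
variable {V : Type*} [NormedAddCommGroup V] [InnerProductSpace ℝ V]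
variable (e : OrthonormalBasis (Fin 6) ℝ V) {R : V → V → V → V → ℝ}

/-- The squared norm of the difference of `R` and the curvature tensor of constant curvature `κ`,
computed in the orthonormal basis `e`. For an Einstein tensor with `Ric = 5 κ` this is the squared
norm of the Weyl tensor. -/
noncomputable def devSq (e : OrthonormalBasis (Fin 6) ℝ V) (κ : ℝ) (R : V → V → V → V → ℝ) : ℝ :=
  ∑ a, ∑ b, ∑ c, ∑ d, (R (e a) (e b) (e c) (e d) -
    κ * (inner ℝ (e a) (e c) * inner ℝ (e b) (e d)
      - inner ℝ (e a) (e d) * inner ℝ (e b) (e c))) ^ 2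

theorem devSq_nonneg (κ : ℝ) (R : V → V → V → V → ℝ) : 0 ≤ devSq e κ R := by
  unfold devSq
  positivity

theorem devSq_scl {κ : ℝ} (hκ : 0 < κ) (R : V → V → V → V → ℝ) :
    dev (scl κ⁻¹ (tn e R)) = devSq e κ R / κ ^ 2 := by
  unfold dev devSq scl tn
  simp only [Finset.sum_div]
  refine Finset.sum_congr rfl fun a _ => Finset.sum_congr rfl fun b _ =>
    Finset.sum_congr rfl fun c _ => Finset.sum_congr rfl fun d _ => ?_
  rw [orthonormal_iff_ite.1 e.orthonormal a c, orthonormal_iff_ite.1 e.orthonormal b d,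
    orthonormal_iff_ite.1 e.orthonormal a d, orthonormal_iff_ite.1 e.orthonormal b c]
  field_simp

theorem neg_devSq (κ : ℝ) (R : V → V → V → V → ℝ) :
    devSq e κ (fun x y z w => - R x y z w) = devSq e (-κ) R := by
  unfold devSq
  refine Finset.sum_congr rfl fun a _ => Finset.sum_congr rfl fun b _ =>
    Finset.sum_congr rfl fun c _ => Finset.sum_congr rfl fun d _ => ?_
  ring

theorem comp_boundGE (hR : AlgCurv R) {κ c : ℝ} (hκ : 0 < κ) (h : SecGE R (c * κ))
    (x : Fin 6 → ℝ) (hx : ∑ a, x a ^ 2 = 1) (y : Fin 6 → ℝ) :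
    c * area2 x y ≤ quad (scl κ⁻¹ (tn e R)) x y := by
  have hx1 : ‖vc e x‖ = 1 := by
    have := vc_norm e x
    rw [hx] at this
    nlinarith [norm_nonneg (vc e x)]
  have hN : SecLE (fun x y z w => - R x y z w) (-(c * κ)) := by
    intro u v hu hv huv
    have := h u v hu hv huv
    linarith
  have h1 := sec_bound1 (neg_curv hR) hN (vc e x) (vc e y) hx1
  have ha : ‖vc e y‖ ^ 2 - inner ℝ (vc e x) (vc e y) ^ 2 = area2 x y := by
    rw [vc_norm, vc_inner]
    unfold area2
    rw [hx, one_mul]
  rw [ha] at h1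
  have h2 : c * κ * area2 x y ≤ R (vc e x) (vc e y) (vc e x) (vc e y) := by linarith
  rw [← quad_tn e hR] at h2
  rw [quad_scl]
  calc c * area2 x y = κ⁻¹ * (c * κ * area2 x y) := by field_simp
    _ ≤ κ⁻¹ * quad (tn e R) x y := mul_le_mul_of_nonneg_left h2 (inv_nonneg.2 hκ.le)

theorem gbc_of_gb {κ A : ℝ} (hκ : 0 < κ) (h : 5760 * A ≤ gb (scl κ⁻¹ (tn e R))) :
    A * roundGB κ ≤ gbc e R := by
  have hpi := Real.pi_pos
  rw [gb_scl] at h
  have hc3 : 0 < κ ^ 3 := by positivity
  have h1 : 5760 * A * κ ^ 3 ≤ gb (tn e R) := by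
    calc 5760 * A * κ ^ 3 ≤ (κ⁻¹ ^ 3 * gb (tn e R)) * κ ^ 3 :=
          mul_le_mul_of_nonneg_right h hc3.le
      _ = gb (tn e R) := by field_simp
  rw [gbc_eq]
  calc A * roundGB κ = 1 / ((8 * Real.pi) ^ 3 * 6) * (5760 * A * κ ^ 3) := by
        unfold roundGB
        field_simp
        norm_num
        ring
    _ ≤ _ := mul_le_mul_of_nonneg_left h1 (by positivity)

/-- positive case, `K ≥ κ / 3` -/
theorem gbc_third (hR : AlgCurv R) {κ : ℝ} (hκ : 0 < κ) (hE : Einstein e R κ)
    (h : SecGE R (κ / 3)) : 4 / 135 * roundGB κ ≤ gbc e R := by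
  have h' : SecGE R (1 / 3 * κ) := by
    intro x y hx hy hxy
    have := h x y hx hy hxy
    linarith
  refine gbc_of_gb e hκ ?_
  have h1 := core_third (scl_curv (tn_curv e hR) κ⁻¹) (Rc_ein e hR hκ hE)
    (fun x hx y => comp_boundGE e hR hκ h' x hx y)
  linarith

/-- negative case, `K ≤ -κ / 3` -/
theorem gbc_third_neg (hR : AlgCurv R) {κ : ℝ} (hκ : 0 < κ) (hE : Einstein e R (-κ))
    (h : SecLE R (-(κ / 3))) : gbc e R ≤ -(4 / 135 * roundGB κ) := by
  have hE' : Einstein e (fun x y z w => - R x y z w) κ := by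
    intro v w
    have := hE v w
    rw [Finset.sum_neg_distrib, this]
    ring
  have hS : SecGE (fun x y z w => - R x y z w) (κ / 3) := by
    intro x y hx hy hxy
    have := h x y hx hy hxy
    linarith
  have h1 := gbc_third e (neg_curv hR) hκ hE' hS
  rw [gbc_eq, gb_neg] at h1
  rw [gbc_eq]
  linarith

/-- positive case, `K ≥ c κ` with `c ≥ 3 / 4` -/
theorem gbc_sharp (hR : AlgCurv R) {κ c : ℝ} (hκ : 0 < κ) (hE : Einstein e R κ)
    (h : SecGE R (c * κ)) :
    (1 + (4 * c - 3) * devSq e κ R / (120 * κ ^ 2)) * roundGB κ ≤ gbc e R := by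
  refine gbc_of_gb e hκ ?_
  have hT := scl_curv (tn_curv e hR) κ⁻¹
  have hRc := Rc_ein e hR hκ hE
  have h1 := core_sharp hT hRc (fun x hx y => comp_boundGE e hR hκ h x hx y)
  rw [← dev_eq hT hRc, devSq_scl e hκ] at h1
  refine le_trans (le_of_eq ?_) h1
  field_simp
  ring

/-- negative case, `K ≤ -c κ` with `c ≥ 3 / 4` -/
theorem gbc_sharp_neg (hR : AlgCurv R) {κ c : ℝ} (hκ : 0 < κ) (hE : Einstein e R (-κ))
    (h : SecLE R (-(c * κ))) :
    gbc e R ≤ -((1 + (4 * c - 3) * devSq e (-κ) R / (120 * κ ^ 2)) * roundGB κ) := by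
  have hE' : Einstein e (fun x y z w => - R x y z w) κ := by
    intro v w
    have := hE v w
    rw [Finset.sum_neg_distrib, this]
    ring
  have hS : SecGE (fun x y z w => - R x y z w) (c * κ) := by
    intro x y hx hy hxy
    have := h x y hx hy hxy
    linarith
  have h1 := gbc_sharp e (neg_curv hR) hκ hE' hS
  rw [neg_devSq, gbc_eq, gb_neg] at h1
  rw [gbc_eq]
  linarith

end

end Run7.h677.EU
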